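import Pool.Agent.helper88.GR.Spec

/-!
# PREL: the preimages of `y ^ n + c`
-/

set_option autoImplicit false

open Complex Metric Set Filter Topology MeasureTheory
open MPS (om)
open PPS (pre TT fd)
open XPS (Df er dens tau)

noncomputable section

namespace GR

theorem PREL_eval (n : ℕ) (c z : ℂ) : (fp n c).eval z = z ^ n + c := by
  simp [fp]

theorem PREL_deg (n : ℕ) (c : ℂ) : (fp n c).natDegree = n := by
  unfold fp
  exact Polynomial.natDegree_X_pow_add_C

theorem PREL (hP : PPS.PRB_stmt) : PREL_stmt := by
  intro n c y hn hy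
  have hd : (fp n c).natDegree = n := PREL_deg n c
  obtain ⟨h1, h2, -⟩ := hP (fp n c) (by rw [hd]; omega)
  have hprim : IsPrimitiveRoot (om n) n := Complex.isPrimitiveRoot_exp n (by omega)
  have hnd : ((Multiset.range n).map fun k => om n ^ k * y).Nodup := by
    apply Multiset.Nodup.map_on _ (Multiset.nodup_range n)
    intro a ha b hb hab
    exact hprim.pow_inj (Multiset.mem_range.mp ha) (Multiset.mem_range.mp hb) (mul_right_cancel₀ hy hab)
  symm
  apply Multiset.eq_of_le_of_card_le
  · rw [Multiset.le_iff_subset hnd]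
    intro z hz
    obtain ⟨k, -, rfl⟩ := Multiset.mem_map.mp hz
    rw [h1, PREL_eval, mul_pow, ← pow_mul, mul_comm k n, pow_mul, hprim.pow_eq_one, one_pow, one_mul]
  · rw [h2, hd, Multiset.card_map, Multiset.card_range]

end GR
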